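import Mathlib
import Pool.Agent.Q8.KS.Core5

/-!
MP_91e6de_nt, Q1: the heights of the orbit of a point of full degree over a finite morphism to
projective space.
-/

set_option autoImplicit false

namespace Pool.Agent.Results.MP_91e6de_nt.FullPoints

open Pool.Agent.Q8.KS

/-- Let `V` be a projective variety over a number field `K` with absolute Galois group `G`, let
`f` be an endomorphism of `V` with first dynamical degree `δ > 1`, let `A` be an ample class on `V`
with a height `h_A`, let `π : W → V` be a surjective morphism, and let `φ : W → ℙ^m` be a finite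
morphism of degree `N`, `m = dim W` and `H = φ^* O(1)`. Put
`m_k = (π^* (f^k)^* A ⋅ H^(m - 1)) / N`. There is `C` such that for all points `w` of `W` with
`[K(w) : K(φ(w))] = N` and all `k`, the height `h_A(f^k(π(w)))` differs from `m_k h(φ(w))` by at
most `C m_k √(max(1, h(φ(w))))`; and if `h(φ(w)) ≥ C`, then the arithmetic degree of `f` at `π(w)`
is `δ`. -/
theorem result {G : Type} [Group G] (V W : Variety G) (f : Morphism V V) (π : Morphism W V)
    (hπ : Function.Surjective π.pt) (A : V.Pic) (h_A : V.Pt → ℝ) (δ : ℝ) (hA : V.IsAmple A)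
    (hh : V.IsHeight A h_A) (hδ : 1 < δ) (hdyn : IsDynamicalDegree f A δ) (φ : Cover W) :
    ∃ C : ℝ, ∀ w : W.Pt, φ.relDeg w = φ.N →
      (∀ k : ℕ,
        |h_A (f.pt^[k] (π.pt w))
            - W.deg (W.cls φ.H) (π.ns ((f.ns ^ k) (V.cls A))) / φ.N * φ.h (φ.φ w)|
          ≤ C * (W.deg (W.cls φ.H) (π.ns ((f.ns ^ k) (V.cls A))) / φ.N)
            * √(max 1 (φ.h (φ.φ w)))) ∧
      (C ≤ φ.h (φ.φ w) → IsArithmeticDegree f h_A (π.pt w) δ) := by
  obtain ⟨C, hC⟩ := full_points f π hπ hA hh hδ hdyn φ
  have hd0 : 0 < δ := by linarith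
  obtain ⟨s, η, hs, hη, hinv⟩ := exists_lift V
  obtain ⟨ℓ, c0, B, hc0, hB, hlow, hup, hmain⟩ := along V s η hs hη f hA hh hδ hdyn
  obtain ⟨c1, C1, hc1, hC1, hco⟩ := coef_bounds f π hπ φ hA hd0 hc0 hB hlow hup
  have hm : ∀ k, 0 < coef f π φ A k := fun k =>
    lt_of_lt_of_le (mul_pos hc1 (gr_pos ℓ hd0 k)) (hco k).1
  refine ⟨|C| + (2 * |C|) ^ 2 + 1, fun w hw => ⟨fun k => ?_, fun hhw => ?_⟩⟩
  · refine (hC w hw k).trans ?_
    have h1 : C ≤ |C| + (2 * |C|) ^ 2 + 1 := by
      have := le_abs_self C
      have := sq_nonneg (2 * |C|)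
      linarith
    exact mul_le_mul_of_nonneg_right (mul_le_mul_of_nonneg_right h1 (hm k).le)
      (Real.sqrt_nonneg _)
  · obtain ⟨h, hh'⟩ : ∃ h : ℝ, h = φ.h (φ.φ w) := ⟨_, rfl⟩
    have hCw := hC w hw
    rw [← hh'] at hhw hCw
    have ha := abs_nonneg C
    have h1 : 1 ≤ h := by
      have := sq_nonneg (2 * |C|)
      linarith
    have h0 : 0 < h := by linarith
    have h2 : 2 * |C| ≤ √h := by
      refine Real.le_sqrt_of_sq_le ?_
      linarith
    have h3 : |C| * √h ≤ h / 2 := by
      have h10 : √h * √h = h := Real.mul_self_sqrt h0.le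
      nlinarith [Real.sqrt_nonneg h]
    have hmax : max 1 h = h := max_eq_right h1
    refine arith_of_bounds f π hπ hA hh hδ hdyn φ (p := h / 2) (q := 2 * h) (by positivity) w
      (fun k => ?_) (fun k => ?_)
    · have h4 : |h_A (f.pt^[k] (π.pt w)) - coef f π φ A k * h| ≤ C * coef f π φ A k * √h := by
        have := hCw k
        rw [hmax] at this
        exact this
      have h5 := (abs_le.1 h4).1
      have h6 : C * coef f π φ A k * √h ≤ coef f π φ A k * (h / 2) := by
        calc C * coef f π φ A k * √h ≤ |C| * coef f π φ A k * √h := by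
              refine mul_le_mul_of_nonneg_right (mul_le_mul_of_nonneg_right (le_abs_self _)
                (hm k).le) (Real.sqrt_nonneg _)
          _ = coef f π φ A k * (|C| * √h) := by ring
          _ ≤ coef f π φ A k * (h / 2) := mul_le_mul_of_nonneg_left h3 (hm k).le
      linarith
    · have h4 : |h_A (f.pt^[k] (π.pt w)) - coef f π φ A k * h| ≤ C * coef f π φ A k * √h := by
        have := hCw k
        rw [hmax] at this
        exact this
      have h5 := (abs_le.1 h4).2
      have h6 : C * coef f π φ A k * √h ≤ coef f π φ A k * (h / 2) := by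
        calc C * coef f π φ A k * √h ≤ |C| * coef f π φ A k * √h := by
              refine mul_le_mul_of_nonneg_right (mul_le_mul_of_nonneg_right (le_abs_self _)
                (hm k).le) (Real.sqrt_nonneg _)
          _ = coef f π φ A k * (|C| * √h) := by ring
          _ ≤ coef f π φ A k * (h / 2) := mul_le_mul_of_nonneg_left h3 (hm k).le
      have h7 : 0 ≤ coef f π φ A k * h := mul_nonneg (hm k).le h0.le
      linarith

end Pool.Agent.Results.MP_91e6de_nt.FullPoints
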